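import Mathlib

/-!
The Balog-Szemeredi-Gowers theorem.
-/

open Finset
open scoped Pointwise Combinatorics.Additive

namespace Pool.Agent.Shared.AddComb

variable {G : Type*} [AddCommGroup G] [DecidableEq G]

/-- The number of representations of `d` as a difference of two elements of `A`. -/
def rep (A : Finset G) (d : G) : ℕ := #{a ∈ A | a - d ∈ A}

theorem rep_le (A : Finset G) (d : G) : rep A d ≤ #A := card_filter_le _ _

theorem rep_pos {A : Finset G} {d : G} (h : d ∈ A - A) : 0 < rep A d := by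
  obtain ⟨a, ha, b, hb, rfl⟩ := mem_sub.1 h
  exact card_pos.2 ⟨a, by simp [ha, hb]⟩

theorem sum_rep (A : Finset G) (F : G → ℝ) :
    ∑ a ∈ A, ∑ b ∈ A, F (a - b) = ∑ d ∈ A - A, rep A d * F d := by
  have h1 : ∀ a ∈ A, ∑ b ∈ A, F (a - b) = ∑ d ∈ A - A, if a - d ∈ A then F d else 0 := by
    intro a ha
    rw [← sum_filter]
    refine sum_bij (fun b _ => a - b) ?_ ?_ ?_ ?_
    · intro b hb
      simp [sub_mem_sub ha hb, hb]
    · intro b _ b' _ h
      simpa using h
    · intro d hd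
      exact ⟨a - d, (mem_filter.1 hd).2, by simp⟩
    · intro b _
      rfl
  rw [sum_congr rfl h1, sum_comm]
  refine sum_congr rfl fun d _ => ?_
  rw [← sum_filter, sum_const, nsmul_eq_mul, rep]

theorem sum_rep_one (A : Finset G) : ∑ d ∈ A - A, (rep A d : ℝ) = #A ^ 2 := by
  have := sum_rep A fun _ => 1
  simp only [sum_const, nsmul_eq_mul, mul_one] at this
  rw [← this, sq]

theorem energy_eq (A : Finset G) : (E[A] : ℝ) = ∑ d ∈ A - A, (rep A d : ℝ) ^ 2 := by
  have h1 : E[A] = ∑ p ∈ A ×ˢ A, rep A (p.1 - p.2) := by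
    rw [addEnergy, card_filter, sum_product]
    refine sum_congr rfl fun p _ => ?_
    rw [← card_filter, rep]
    refine card_bij (fun q _ => q.2) ?_ ?_ ?_
    · intro q hq
      simp only [mem_filter, mem_product] at hq ⊢
      refine ⟨hq.1.2, ?_⟩
      have : q.2 - (p.1 - p.2) = q.1 := by
        have h2 : q.2 = p.1 + q.1 - p.2 := by rw [hq.2]; abel
        rw [h2]
        abel
      rw [this]
      exact hq.1.1
    · intro q hq q' hq' h
      simp only [mem_filter, mem_product] at hq hq'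
      refine Prod.ext ?_ h
      have h2 := hq.2
      rw [h, ← hq'.2] at h2
      exact add_left_cancel h2
    · intro b hb
      rw [mem_filter] at hb
      exact ⟨(b - (p.1 - p.2), b), by simp [hb.1, hb.2]; abel, rfl⟩
  rw [h1, sum_product]
  push_cast
  rw [sum_rep A fun d => (rep A d : ℝ)]
  exact sum_congr rfl fun d _ => (sq _).symm

/-- A subset in which almost all differences are popular. -/
theorem exists_popular {A : Finset G} (hA : A.Nonempty) {K : ℝ} (hK : 0 < K)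
    (hE : (#A : ℝ) ^ 3 ≤ K * E[A]) :
    ∃ X ⊆ A, (#A : ℝ) ≤ 2 * K * #X ∧
      8 * (∑ a ∈ X, (#{b ∈ X | (rep A (a - b) : ℝ) < #A / (16 * K ^ 2)} : ℝ)) ≤ #X ^ 2 := by
  have hA0 : (0 : ℝ) < #A := by exact_mod_cast hA.card_pos
  set θ : ℝ := #A / (16 * K ^ 2) with hθ
  have hθ0 : 0 < θ := by positivity
  set X : G → Finset G := fun s => {a ∈ A | a - s ∈ A} with hX
  set bad : G → ℝ := fun s => ∑ a ∈ X s, (#{b ∈ X s | (rep A (a - b) : ℝ) < θ} : ℝ) with hbad
  have h1 : ∑ s ∈ A - A, bad s ≤ #A ^ 2 * θ := by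
    have e : ∀ s, bad s = ∑ a ∈ A, ∑ b ∈ A,
        if (rep A (a - b) : ℝ) < θ ∧ a - s ∈ A ∧ b - s ∈ A then (1 : ℝ) else 0 := by
      intro s
      simp only [hbad, hX, sum_filter, filter_filter]
      refine sum_congr rfl fun a _ => ?_
      split_ifs with h
      · rw [sum_boole]
        congr 2
        ext b
        simp only [h, true_and, and_comm]
      · simp [h]
    simp only [e]
    rw [sum_comm]
    have : (#A : ℝ) ^ 2 * θ = ∑ a ∈ A, ∑ b ∈ A, θ := by
      simp only [sum_const, nsmul_eq_mul]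
      ring
    rw [this]
    refine sum_le_sum fun a _ => ?_
    rw [sum_comm]
    refine sum_le_sum fun b _ => ?_
    by_cases h : (rep A (a - b) : ℝ) < θ
    · refine le_trans ?_ h.le
      rw [sum_boole, Nat.cast_le]
      refine card_le_card_of_injOn (fun s => a - s) ?_ ?_
      · intro s hs
        simp only [coe_filter, Set.mem_ofPred_eq] at hs ⊢
        refine ⟨hs.2.2.1, ?_⟩
        have : a - s - (a - b) = b - s := by abel
        rw [this]
        exact hs.2.2.2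
      · intro s _ s' _ h
        simpa using h
    · simp [h, hθ0.le]
  have hbad0 : ∀ s, 0 ≤ bad s := fun s => sum_nonneg fun _ _ => Nat.cast_nonneg _
  have h2 : ∑ s ∈ A - A, rep A s * bad s ≤ #A ^ 3 * θ := by
    calc _ ≤ ∑ s ∈ A - A, #A * bad s :=
          sum_le_sum fun s _ => mul_le_mul_of_nonneg_right (by exact_mod_cast rep_le A s) (hbad0 s)
      _ ≤ #A * (#A ^ 2 * θ) := by
          rw [← mul_sum]
          exact mul_le_mul_of_nonneg_left h1 hA0.le
      _ = _ := by ring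
  have h3 : (E[A] : ℝ) ^ 2 ≤ #A ^ 2 * ∑ s ∈ A - A, (rep A s : ℝ) ^ 3 := by
    rw [energy_eq, ← sum_rep_one]
    refine sum_sq_le_sum_mul_sum_of_sq_le_mul _ (fun _ _ => Nat.cast_nonneg _)
      (fun _ _ => by positivity) fun s _ => le_of_eq (by ring)
  have h4 : (#A : ℝ) ^ 4 / K ^ 2 ≤ ∑ s ∈ A - A, (rep A s : ℝ) ^ 3 := by
    have a1 : ((#A : ℝ) ^ 3) ^ 2 ≤ (K * E[A]) ^ 2 := pow_le_pow_left₀ (by positivity) hE 2
    have a2 : (#A : ℝ) ^ 2 * #A ^ 4 ≤ #A ^ 2 * (K ^ 2 * ∑ s ∈ A - A, (rep A s : ℝ) ^ 3) := by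
      have := mul_le_mul_of_nonneg_left h3 (sq_nonneg K)
      nlinarith
    rw [div_le_iff₀ (by positivity), mul_comm]
    exact le_of_mul_le_mul_left a2 (by positivity)
  have h5 : ∃ s ∈ A - A, (#A : ℝ) ^ 2 / (2 * K ^ 2) ≤ (rep A s : ℝ) ^ 2 - 8 * bad s := by
    by_contra h
    push Not at h
    have a1 : ∑ s ∈ A - A, (rep A s : ℝ) * ((rep A s : ℝ) ^ 2 - 8 * bad s) <
        ∑ s ∈ A - A, (rep A s : ℝ) * (#A ^ 2 / (2 * K ^ 2)) :=
      sum_lt_sum_of_nonempty (hA.sub hA) fun s hs =>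
        mul_lt_mul_of_pos_left (h s hs) (by exact_mod_cast rep_pos hs)
    rw [← sum_mul, sum_rep_one] at a1
    have a2 : ∑ s ∈ A - A, (rep A s : ℝ) * ((rep A s : ℝ) ^ 2 - 8 * bad s) =
        ∑ s ∈ A - A, (rep A s : ℝ) ^ 3 - 8 * ∑ s ∈ A - A, rep A s * bad s := by
      rw [mul_sum, ← sum_sub_distrib]
      exact sum_congr rfl fun s _ => by ring
    have a3 : (#A : ℝ) ^ 4 / K ^ 2 - 8 * (#A ^ 3 * θ) = #A ^ 2 * (#A ^ 2 / (2 * K ^ 2)) := by
      rw [hθ]
      field_simp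
      ring
    linarith
  obtain ⟨s, -, hs⟩ := h5
  have hXs : (#(X s) : ℝ) = rep A s := rfl
  refine ⟨X s, filter_subset _ _, ?_, ?_⟩
  · rw [hXs]
    refine (abs_le_of_sq_le_sq' ?_ (by positivity)).2
    have a1 : (#A : ℝ) ^ 2 / (2 * K ^ 2) ≤ (rep A s : ℝ) ^ 2 := by linarith [hbad0 s]
    rw [div_le_iff₀ (by positivity)] at a1
    nlinarith [mul_nonneg (sq_nonneg K) (sq_nonneg (rep A s : ℝ))]
  · rw [hXs]
    have : 0 ≤ (#A : ℝ) ^ 2 / (2 * K ^ 2) := by positivity
    change 8 * bad s ≤ _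
    linarith

/-- The Balog-Szemeredi-Gowers theorem. -/
theorem bsg {A : Finset G} (hA : A.Nonempty) {K : ℝ} (hK : 0 < K)
    (hE : (#A : ℝ) ^ 3 ≤ K * E[A]) :
    ∃ A' ⊆ A, (#A : ℝ) ≤ 4 * K * #A' ∧ (#(A' - A') : ℝ) ≤ 4096 * K ^ 6 * #A' := by
  have hA0 : (0 : ℝ) < #A := by exact_mod_cast hA.card_pos
  obtain ⟨X, hXA, hX1, hX2⟩ := exists_popular hA hK hE
  set θ : ℝ := #A / (16 * K ^ 2) with hθ
  have hθ0 : 0 < θ := by positivity
  have hX0 : (0 : ℝ) < #X := by
    by_contra h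
    have : (#X : ℝ) = 0 := le_antisymm (not_lt.1 h) (Nat.cast_nonneg _)
    rw [this] at hX1
    linarith
  set nb : G → ℝ := fun a => (#{b ∈ X | (rep A (a - b) : ℝ) < θ} : ℝ) with hnb
  set A' : Finset G := {a ∈ X | nb a ≤ #X / 4} with hA'
  have h1 : (#X : ℝ) ≤ 2 * #A' := by
    have a1 := card_filter_add_card_filter_not (s := X) (fun a => nb a ≤ #X / 4)
    have a2 : (#{a ∈ X | ¬ nb a ≤ #X / 4} : ℝ) * (#X / 4) ≤ ∑ a ∈ X, nb a := by
      rw [← nsmul_eq_mul, ← sum_const]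
      refine le_trans (sum_le_sum fun a ha => (not_le.1 (mem_filter.1 ha).2).le) ?_
      exact sum_le_sum_of_subset_of_nonneg (filter_subset _ _) fun _ _ _ => Nat.cast_nonneg _
    have a3 : (#A' : ℝ) + #{a ∈ X | ¬ nb a ≤ #X / 4} = #X := by exact_mod_cast a1
    have a4 : (#{a ∈ X | ¬ nb a ≤ #X / 4} : ℝ) * #X ≤ #X / 2 * #X := by nlinarith
    have a5 := le_of_mul_le_mul_right a4 hX0
    linarith
  set P : Finset G := {d ∈ A - A | θ ≤ rep A d} with hP
  have h2 : (#P : ℝ) ≤ 16 * K ^ 2 * #A := by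
    have a1 : (#P : ℝ) * θ ≤ #A ^ 2 := by
      rw [← sum_rep_one, ← nsmul_eq_mul, ← sum_const]
      refine le_trans (sum_le_sum fun a ha => (mem_filter.1 ha).2) ?_
      exact sum_le_sum_of_subset_of_nonneg (filter_subset _ _) fun _ _ _ => Nat.cast_nonneg _
    rw [hθ, ← mul_div_assoc, div_le_iff₀ (by positivity)] at a1
    have a2 : (#P : ℝ) * #A ≤ 16 * K ^ 2 * #A * #A := by nlinarith
    exact le_of_mul_le_mul_right a2 hA0
  have h3 : (#(A' - A') : ℝ) * (#X / 2) ≤ #P ^ 2 := by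
    have a1 : ∀ d ∈ A' - A', (#X : ℝ) / 2 ≤ #{p ∈ P ×ˢ P | p.1 - p.2 = d} := by
      intro d hd
      obtain ⟨a, ha, a', ha', rfl⟩ := mem_sub.1 hd
      rw [mem_filter] at ha ha'
      set B : Finset G := {b ∈ X | θ ≤ rep A (a - b) ∧ θ ≤ rep A (a' - b)} with hB
      have b1 : #X ≤ #B + (#{b ∈ X | (rep A (a - b) : ℝ) < θ} +
          #{b ∈ X | (rep A (a' - b) : ℝ) < θ}) := by
        refine le_trans (card_le_card ?_) ((card_union_le _ _).trans
          (Nat.add_le_add_left (card_union_le _ _) _))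
        intro b hb
        simp only [hB, mem_union, mem_filter, hb, true_and]
        by_cases c1 : θ ≤ rep A (a - b)
        · by_cases c2 : θ ≤ rep A (a' - b)
          · exact Or.inl ⟨c1, c2⟩
          · exact Or.inr (Or.inr (not_le.1 c2))
        · exact Or.inr (Or.inl (not_le.1 c1))
      have b2 : (#X : ℝ) ≤ #B + (nb a + nb a') := by
        simp only [hnb]
        exact_mod_cast b1
      have b3 : #B ≤ #{p ∈ P ×ˢ P | p.1 - p.2 = a - a'} := by
        refine card_le_card_of_injOn (fun b => (a - b, a' - b)) ?_ ?_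
        · intro b hb
          simp only [hB, coe_filter, Set.mem_ofPred_eq] at hb
          simp only [hP, coe_filter, mem_product, mem_filter, Set.mem_ofPred_eq]
          exact ⟨⟨⟨sub_mem_sub (hXA ha.1) (hXA hb.1), hb.2.1⟩,
            sub_mem_sub (hXA ha'.1) (hXA hb.1), hb.2.2⟩, by abel⟩
        · intro b _ b' _ h
          simpa using congrArg Prod.fst h
      have b4 : (#B : ℝ) ≤ #{p ∈ P ×ˢ P | p.1 - p.2 = a - a'} := by exact_mod_cast b3
      linarith [ha.2, ha'.2]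
    rw [← nsmul_eq_mul, ← sum_const]
    refine (sum_le_sum a1).trans ?_
    rw [← Nat.cast_sum, sum_card_fiberwise_eq_card_filter, sq, ← Nat.cast_mul, ← card_product,
      Nat.cast_le]
    exact card_filter_le _ _
  have h4 : (#A : ℝ) ≤ 4 * K * #A' := by nlinarith
  refine ⟨A', (filter_subset _ _).trans hXA, h4, ?_⟩
  have a1 : (#P : ℝ) ^ 2 ≤ (16 * K ^ 2 * #A) ^ 2 := pow_le_pow_left₀ (Nat.cast_nonneg _) h2 2
  have a2 : (#A : ℝ) * #A ≤ 2 * K * #X * (4 * K * #A') :=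
    mul_le_mul hX1 h4 hA0.le (by positivity)
  have a3 : (#(A' - A') : ℝ) * #X ≤ 4096 * K ^ 6 * #A' * #X := by
    have := mul_le_mul_of_nonneg_left a2 (show 0 ≤ 512 * K ^ 4 by positivity)
    nlinarith
  exact le_of_mul_le_mul_right a3 hX0

end Pool.Agent.Shared.AddComb
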