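import Mathlib

/-!
Fourier analysis on a finite abelian group, Bohr sets and Chang's lemma.
-/

open Finset
open scoped ComplexConjugate BigOperators

namespace Pool.Agent.Shared.AddComb

variable {G : Type*} [AddCommGroup G] [Fintype G]

/-- The Fourier coefficient of `φ` at the character `ψ` (averages on the group side). -/
noncomputable def ft (φ : G → ℂ) (ψ : AddChar G ℂ) : ℂ := 𝔼 x, φ x * conj (ψ x)

theorem card_pos_real : (0 : ℝ) < Fintype.card G := by exact_mod_cast Fintype.card_pos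

theorem expect_eq {α : Type*} [Fintype α] (f : α → ℝ) :
    𝔼 x, f x = (∑ x, f x) / Fintype.card α := by
  rw [Fintype.expect_eq_sum_div_card]

theorem expect_eq' {α : Type*} [Fintype α] (f : α → ℂ) :
    𝔼 x, f x = (∑ x, f x) / Fintype.card α := by
  rw [Fintype.expect_eq_sum_div_card]

theorem conj_mul_char (ψ : AddChar G ℂ) (x y : G) : conj (ψ x) * ψ y = ψ (y - x) := by
  rw [← AddChar.map_neg_eq_conj, ← AddChar.map_add_eq_mul]
  congr 1
  abel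

/-- Fourier inversion. -/
theorem ft_inversion (φ : G → ℂ) (y : G) : ∑ ψ : AddChar G ℂ, ft φ ψ * ψ y = φ y := by
  classical
  have hc : (Fintype.card G : ℂ) ≠ 0 := by exact_mod_cast Fintype.card_ne_zero
  simp only [ft, expect_eq', div_mul_eq_mul_div, sum_mul, mul_assoc, conj_mul_char]
  rw [← sum_div, sum_comm]
  simp only [← mul_sum, AddChar.sum_apply_eq_ite, sub_eq_zero]
  rw [sum_eq_single y]
  · simp [hc]
  · intro x _ hx
    simp [Ne.symm hx]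
  · simp

/-- Plancherel. -/
theorem plancherel (φ χ : G → ℂ) :
    ∑ ψ : AddChar G ℂ, ft φ ψ * conj (ft χ ψ) = 𝔼 x, φ x * conj (χ x) := by
  have : ∀ ψ : AddChar G ℂ, ft φ ψ * conj (ft χ ψ) = 𝔼 x, ft φ ψ * ψ x * conj (χ x) := by
    intro ψ
    rw [ft.eq_1 χ, map_expect, mul_expect]
    refine expect_congr rfl fun x _ => ?_
    simp only [map_mul, RingHomCompTriple.comp_apply, RingHom.id_apply]
    ring
  simp only [this]
  rw [← expect_sum_comm]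
  refine expect_congr rfl fun x _ => ?_
  rw [← sum_mul, ft_inversion]

/-- Parseval. -/
theorem parseval (φ : G → ℂ) : ∑ ψ : AddChar G ℂ, ‖ft φ ψ‖ ^ 2 = 𝔼 x, ‖φ x‖ ^ 2 := by
  have := plancherel φ φ
  simp only [Complex.mul_conj, Complex.normSq_eq_norm_sq] at this
  exact_mod_cast this

theorem norm_expect_le (f : G → ℂ) : ‖𝔼 x, f x‖ ≤ 𝔼 x, ‖f x‖ := by
  rw [expect_eq', expect_eq, norm_div, Complex.norm_natCast]
  exact div_le_div_of_nonneg_right (norm_sum_le _ _) (Nat.cast_nonneg _)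

theorem norm_ft_le (φ : G → ℂ) (ψ : AddChar G ℂ) : ‖ft φ ψ‖ ≤ 𝔼 x, ‖φ x‖ := by
  refine (norm_expect_le _).trans (le_of_eq (expect_congr rfl fun x _ => ?_))
  simp

theorem ft_translate (φ : G → ℂ) (t : G) (ψ : AddChar G ℂ) :
    ft (fun x => φ (x + t)) ψ = ψ t * ft φ ψ := by
  rw [ft, ft, mul_expect]
  refine Fintype.expect_equiv (Equiv.addRight t) _ _ fun x => ?_
  simp only [Equiv.coe_addRight, AddChar.map_add_eq_mul, map_mul]
  have : ψ t * conj (ψ t) = 1 := by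
    rw [Complex.mul_conj, Complex.normSq_eq_norm_sq]
    simp
  linear_combination (-(φ (x + t) * conj (ψ x))) * this

theorem ft_sum {ι : Type*} (s : Finset ι) (φ : ι → G → ℂ) (ψ : AddChar G ℂ) :
    ft (fun x => ∑ i ∈ s, φ i x) ψ = ∑ i ∈ s, ft (φ i) ψ := by
  simp only [ft, sum_mul]
  rw [expect_sum_comm]

theorem ft_const_mul (c : ℂ) (φ : G → ℂ) (ψ : AddChar G ℂ) :
    ft (fun x => c * φ x) ψ = c * ft φ ψ := by
  simp only [ft, mul_expect, mul_assoc]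

/-! ### Bohr sets -/

open Classical in
/-- The Bohr set with frequencies `Λ` and (chordal) radius `ρ`. -/
noncomputable def bohr (Λ : Finset (AddChar G ℂ)) (ρ : ℝ) : Finset G :=
  {x | ∀ ψ ∈ Λ, ‖ψ x - 1‖ ≤ ρ}

theorem mem_bohr {Λ : Finset (AddChar G ℂ)} {ρ : ℝ} {x : G} :
    x ∈ bohr Λ ρ ↔ ∀ ψ ∈ Λ, ‖ψ x - 1‖ ≤ ρ := by simp [bohr]

theorem zero_mem_bohr {Λ : Finset (AddChar G ℂ)} {ρ : ℝ} (h : 0 ≤ ρ) : (0 : G) ∈ bohr Λ ρ := by
  simp [mem_bohr, h]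

theorem bohr_mono {Λ Λ' : Finset (AddChar G ℂ)} {ρ ρ' : ℝ} (hΛ : Λ' ⊆ Λ) (h : ρ ≤ ρ') :
    bohr Λ ρ ⊆ bohr Λ' ρ' := fun _ hx =>
  mem_bohr.2 fun ψ hψ => (mem_bohr.1 hx ψ (hΛ hψ)).trans h

theorem norm_mul_sub_one_le {a b : ℂ} (ha : ‖a‖ = 1) : ‖a * b - 1‖ ≤ ‖a - 1‖ + ‖b - 1‖ := by
  have : a * b - 1 = (a - 1) + a * (b - 1) := by ring
  rw [this]
  refine (norm_add_le _ _).trans (le_of_eq ?_)
  rw [norm_mul, ha, one_mul]

theorem add_mem_bohr {Λ : Finset (AddChar G ℂ)} {ρ ρ' : ℝ} {x y : G} (hx : x ∈ bohr Λ ρ)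
    (hy : y ∈ bohr Λ ρ') : x + y ∈ bohr Λ (ρ + ρ') :=
  mem_bohr.2 fun ψ hψ => by
    rw [AddChar.map_add_eq_mul]
    exact (norm_mul_sub_one_le (ψ.norm_apply x)).trans
      (add_le_add (mem_bohr.1 hx ψ hψ) (mem_bohr.1 hy ψ hψ))

theorem norm_char_neg_sub_one (ψ : AddChar G ℂ) (x : G) : ‖ψ (-x) - 1‖ = ‖ψ x - 1‖ := by
  rw [AddChar.map_neg_eq_conj, ← Complex.norm_conj (ψ x - 1)]
  simp

theorem neg_mem_bohr {Λ : Finset (AddChar G ℂ)} {ρ : ℝ} {x : G} (hx : x ∈ bohr Λ ρ) :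
    -x ∈ bohr Λ ρ :=
  mem_bohr.2 fun ψ hψ => by
    rw [norm_char_neg_sub_one]
    exact mem_bohr.1 hx ψ hψ

theorem sub_mem_bohr {Λ : Finset (AddChar G ℂ)} {ρ ρ' : ℝ} {x y : G} (hx : x ∈ bohr Λ ρ)
    (hy : y ∈ bohr Λ ρ') : x - y ∈ bohr Λ (ρ + ρ') := by
  rw [sub_eq_add_neg]
  exact add_mem_bohr hx (neg_mem_bohr hy)

theorem norm_prod_sub_one_le {ι : Type*} (s : Finset ι) (f : ι → ℂ) (hf : ∀ i, ‖f i‖ = 1) :
    ‖∏ i ∈ s, f i - 1‖ ≤ ∑ i ∈ s, ‖f i - 1‖ := by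
  classical
  induction s using Finset.induction_on with
  | empty => simp
  | insert a s ha ih =>
    rw [prod_insert ha, sum_insert ha]
    exact (norm_mul_sub_one_le (hf a)).trans (add_le_add le_rfl ih)

/-- Characters in the span of `Λ` are almost trivial on the Bohr set of `Λ`. -/
theorem norm_sub_one_le_of_mem_addSpan [DecidableEq (AddChar G ℂ)] {Λ : Finset (AddChar G ℂ)}
    {ρ : ℝ} (hρ : 0 ≤ ρ) {ψ : AddChar G ℂ} (hψ : ψ ∈ addSpan Λ) {x : G} (hx : x ∈ bohr Λ ρ) :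
    ‖ψ x - 1‖ ≤ #Λ * ρ := by
  obtain ⟨ε, hε, rfl⟩ := mem_addSpan.1 hψ
  rw [AddChar.sum_apply]
  refine (norm_prod_sub_one_le _ _ fun χ => AddChar.norm_apply _ x).trans ?_
  rw [← nsmul_eq_mul]
  refine sum_le_card_nsmul _ _ _ fun χ hχ => ?_
  have := mem_bohr.1 hx χ hχ
  rcases hε χ with h | h | h <;> rw [h]
  · rw [neg_smul, one_smul, AddChar.neg_apply, norm_char_neg_sub_one]
    exact this
  · simpa using hρ
  · simpa using this

theorem norm_sub_le_abs_arg {a b : ℂ} (ha : ‖a‖ = 1) (hb : ‖b‖ = 1) :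
    ‖conj b * a - 1‖ ≤ |a.arg - b.arg| := by
  have h1 := Complex.norm_mul_exp_arg_mul_I a
  have h2 := Complex.norm_mul_exp_arg_mul_I b
  rw [ha] at h1
  rw [hb] at h2
  simp only [Complex.ofReal_one, one_mul] at h1 h2
  have : conj b * a = Complex.exp (Complex.I * (a.arg - b.arg : ℝ)) := by
    conv_lhs => rw [← h1, ← h2]
    rw [← Complex.exp_conj, ← Complex.exp_add]
    congr 1
    simp only [map_mul, Complex.conj_ofReal, Complex.conj_I]
    push_cast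
    ring
  rw [this]
  exact Real.norm_exp_I_mul_ofReal_sub_one_le

/-- A set `S` has a large subset whose differences lie in the Bohr set. -/
theorem exists_subset_sub_mem_bohr (Λ : Finset (AddChar G ℂ)) {ρ : ℝ} (h0 : 0 < ρ) (h1 : ρ ≤ 1)
    (S : Finset G) : ∃ X ⊆ S, (ρ / 8) ^ #Λ * #S ≤ #X ∧ ∀ x ∈ X, ∀ y ∈ X, x - y ∈ bohr Λ ρ := by
  classical
  set M : ℕ := ⌊2 * Real.pi / ρ⌋₊ + 1 with hM
  have hMr : (M : ℝ) ≤ 8 / ρ := by
    have h2 : (⌊2 * Real.pi / ρ⌋₊ : ℝ) ≤ 2 * Real.pi / ρ := Nat.floor_le (by positivity)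
    have h3 := Real.pi_lt_d2
    have h4 : (1 : ℝ) ≤ 1 / ρ := by rw [le_div_iff₀ h0]; linarith
    have h5 : 2 * Real.pi / ρ ≤ 7 / ρ := div_le_div_of_nonneg_right (by linarith) h0.le
    have h6 : 8 / ρ = 7 / ρ + 1 / ρ := by ring
    push_cast [hM]
    linarith
  let F : G → (Λ → ℕ) := fun x ψ => ⌊((ψ.1 x).arg + Real.pi) / ρ⌋₊
  let T : Finset (Λ → ℕ) := Fintype.piFinset fun _ => range M
  have hF : ∀ x ∈ S, F x ∈ T := by
    intro x _
    rw [Fintype.mem_piFinset]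
    intro ψ
    rw [mem_range, hM, Nat.lt_add_one_iff]
    refine Nat.floor_le_floor (div_le_div_of_nonneg_right ?_ h0.le)
    linarith [Complex.arg_le_pi (ψ.1 x)]
  have hT : T.Nonempty := by
    rw [Fintype.piFinset_nonempty]
    intro _
    exact ⟨0, by simp [hM]⟩
  have hTc : (#T : ℝ) ≤ (8 / ρ) ^ #Λ := by
    simp only [T, Fintype.card_piFinset, card_range, prod_const, card_univ, Fintype.card_coe]
    push_cast
    exact pow_le_pow_left₀ (Nat.cast_nonneg _) hMr _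
  obtain ⟨c, -, hc⟩ := exists_le_sum_fiber_of_maps_to_of_nsmul_le_sum (w := fun _ => (1 : ℝ))
    (b := (ρ / 8) ^ #Λ * #S) hF hT (by
      rw [nsmul_eq_mul, sum_const, nsmul_eq_mul, mul_one, ← mul_assoc]
      refine mul_le_of_le_one_left (Nat.cast_nonneg _) ?_
      refine (mul_le_mul_of_nonneg_right hTc (by positivity)).trans (le_of_eq ?_)
      rw [← mul_pow]
      have : 8 / ρ * (ρ / 8) = 1 := by field_simp
      rw [this, one_pow])
  refine ⟨{x ∈ S | F x = c}, filter_subset _ _, by simpa using hc, fun x hx y hy => ?_⟩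
  rw [mem_filter] at hx hy
  refine mem_bohr.2 fun ψ hψ => ?_
  rw [← conj_mul_char]
  refine (norm_sub_le_abs_arg (ψ.norm_apply x) (ψ.norm_apply y)).trans ?_
  have h2 : ⌊((ψ x).arg + Real.pi) / ρ⌋₊ = ⌊((ψ y).arg + Real.pi) / ρ⌋₊ :=
    congrFun (hx.2.trans hy.2.symm) ⟨ψ, hψ⟩
  have h3 : ∀ z : ℂ, 0 ≤ (z.arg + Real.pi) / ρ := fun z =>
    div_nonneg (by linarith [Complex.neg_pi_lt_arg z]) h0.le
  have a1 := Nat.floor_le (h3 (ψ x))
  have a2 := Nat.floor_le (h3 (ψ y))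
  have a3 := Nat.lt_floor_add_one (((ψ x).arg + Real.pi) / ρ)
  have a4 := Nat.lt_floor_add_one (((ψ y).arg + Real.pi) / ρ)
  rw [h2] at a1 a3
  have e : (ψ x).arg - (ψ y).arg =
      ρ * (((ψ x).arg + Real.pi) / ρ - ((ψ y).arg + Real.pi) / ρ) := by
    field_simp
    ring
  rw [e, abs_mul, abs_of_pos h0]
  refine mul_le_of_le_one_right h0.le (abs_le.2 ⟨by linarith, by linarith⟩)

/-- The size of a Bohr set. -/
theorem card_bohr_ge (Λ : Finset (AddChar G ℂ)) {ρ : ℝ} (h0 : 0 < ρ) (h1 : ρ ≤ 1) :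
    (ρ / 8) ^ #Λ * Fintype.card G ≤ #(bohr Λ ρ) := by
  classical
  obtain ⟨X, -, hX, hX'⟩ := exists_subset_sub_mem_bohr Λ h0 h1 (univ : Finset G)
  have hpos : (0 : ℝ) < #X := lt_of_lt_of_le (mul_pos (by positivity) card_pos_real) hX
  obtain ⟨y, hy⟩ : X.Nonempty := card_pos.1 (by exact_mod_cast hpos)
  refine hX.trans ?_
  exact_mod_cast card_le_card_of_injOn (fun x => x - y) (fun x hx => hX' x hx y hy)
    (fun x _ x' _ h => by simpa using h)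

/-! ### Chang's lemma -/

theorem exp_mul_le {t y : ℝ} (hy : |y| ≤ 1) :
    Real.exp (t * y) ≤ Real.cosh t + Real.sinh t * y := by
  obtain ⟨h1, h2⟩ := abs_le.1 hy
  have := convexOn_exp.2 (Set.mem_univ t) (Set.mem_univ (-t)) (show 0 ≤ (1 + y) / 2 by linarith)
    (show 0 ≤ (1 - y) / 2 by linarith) (by ring)
  simp only [smul_eq_mul] at this
  rw [Real.cosh_eq, Real.sinh_eq]
  have e : (1 + y) / 2 * t + (1 - y) / 2 * -t = t * y := by ring
  rw [e] at this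
  linarith

/-- Rudin's inequality, exponential form. -/
theorem rudin {Λ : Finset (AddChar G ℂ)} (hΛ : AddDissociated (Λ : Set (AddChar G ℂ)))
    (c : AddChar G ℂ → ℂ) (hc : ∀ ψ, ‖c ψ‖ ≤ 1) (t : ℝ) :
    𝔼 x, Real.exp (t * ∑ ψ ∈ Λ, (c ψ * ψ x).re) ≤ Real.exp (t ^ 2 / 2 * #Λ) := by
  classical
  have h1 := AddDissociated.randomisation (fun ψ => if ψ ∈ Λ then Real.cosh t else 1)
    (fun ψ => if ψ ∈ Λ then Real.sinh t * c ψ else 0) (hΛ.subset fun ψ hψ => by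
      by_contra h
      simp only [mem_coe] at h
      simp [h] at hψ)
  have h2 : ∏ ψ : AddChar G ℂ, (if ψ ∈ Λ then Real.cosh t else 1) = Real.cosh t ^ #Λ := by
    rw [prod_ite_mem, univ_inter, prod_const]
  rw [h2] at h1
  calc _ ≤ Real.cosh t ^ #Λ := by
        rw [← h1]
        refine expect_le_expect fun x _ => ?_
        rw [mul_sum, Real.exp_sum]
        have : ∏ ψ : AddChar G ℂ, ((if ψ ∈ Λ then Real.cosh t else 1) +
            ((if ψ ∈ Λ then (Real.sinh t : ℂ) * c ψ else 0) * ψ x).re) =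
            ∏ ψ ∈ Λ, (Real.cosh t + Real.sinh t * (c ψ * ψ x).re) := by
          conv_rhs => rw [← univ_inter Λ, ← prod_ite_mem]
          refine prod_congr rfl fun ψ _ => ?_
          split_ifs
          · rw [mul_assoc, Complex.re_ofReal_mul]
          · simp
        rw [this]
        refine prod_le_prod (fun _ _ => (Real.exp_pos _).le) fun ψ _ => exp_mul_le ?_
        refine (Complex.abs_re_le_norm _).trans ?_
        simpa using hc ψ
    _ ≤ Real.exp (t ^ 2 / 2) ^ #Λ :=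
        pow_le_pow_left₀ (Real.cosh_pos t).le (Real.cosh_le_exp_half_sq t) _
    _ = _ := by rw [← Real.exp_nat_mul, mul_comm]

/-- Jensen's inequality for a weight bounded by one. -/
theorem weight_le_log (w R : G → ℝ) (hw0 : ∀ x, 0 ≤ w x) (hw1 : ∀ x, w x ≤ 1) {α B : ℝ}
    (hα : 𝔼 x, w x = α) (hα0 : 0 < α) (hB : 𝔼 x, Real.exp (R x) ≤ B) :
    𝔼 x, w x * R x ≤ α * Real.log (B / α) := by
  have hG : (0 : ℝ) < Fintype.card G := card_pos_real
  have hs : ∑ x, w x / (α * Fintype.card G) = 1 := by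
    rw [← sum_div, ← hα, expect_eq]
    rw [expect_eq] at hα
    have : 0 < ∑ x, w x := by
      have := mul_pos hα0 hG
      rw [← hα] at this
      rwa [div_mul_cancel₀ _ hG.ne'] at this
    field_simp
  have h1 := convexOn_exp.map_sum_le (t := univ) (w := fun x => w x / (α * Fintype.card G))
    (p := R) (fun x _ => div_nonneg (hw0 x) (by positivity)) hs (fun _ _ => Set.mem_univ _)
  simp only [smul_eq_mul] at h1
  have h2 : ∑ x, w x / (α * Fintype.card G) * Real.exp (R x) ≤ B / α := by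
    rw [expect_eq] at hB
    calc _ ≤ ∑ x, 1 / (α * Fintype.card G) * Real.exp (R x) :=
          sum_le_sum fun x _ => by gcongr; exact hw1 x
      _ = (∑ x, Real.exp (R x)) / Fintype.card G / α := by
          rw [← mul_sum]
          field_simp
      _ ≤ B / α := div_le_div_of_nonneg_right hB hα0.le
  have h3 := Real.log_le_log (Real.exp_pos _) (h1.trans h2)
  rw [Real.log_exp] at h3
  have e : 𝔼 x, w x * R x = α * ∑ x, w x / (α * Fintype.card G) * R x := by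
    rw [expect_eq, mul_sum, sum_div]
    refine sum_congr rfl fun x _ => ?_
    field_simp
  rw [e]
  exact mul_le_mul_of_nonneg_left h3 hα0.le

theorem exp_abs_le (y : ℝ) : Real.exp |y| ≤ Real.exp y + Real.exp (-y) := by
  rcases abs_cases y with h | h <;> rw [h.1] <;> linarith [Real.exp_pos y, Real.exp_pos (-y)]

theorem weight_abs_le {Λ : Finset (AddChar G ℂ)} (hΛ : AddDissociated (Λ : Set (AddChar G ℂ)))
    (c : AddChar G ℂ → ℂ) (hc : ∀ ψ, ‖c ψ‖ ≤ 1) (w : G → ℝ) (hw0 : ∀ x, 0 ≤ w x)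
    (hw1 : ∀ x, w x ≤ 1) {α : ℝ} (hα : 𝔼 x, w x = α) (hα0 : 0 < α) {t : ℝ} (ht : 0 ≤ t) :
    t * 𝔼 x, w x * |(∑ ψ ∈ Λ, c ψ * ψ x).re| ≤ α * (Real.log (2 / α) + t ^ 2 / 2 * #Λ) := by
  have h1 := weight_le_log w (fun x => |t * ∑ ψ ∈ Λ, (c ψ * ψ x).re|) hw0 hw1 hα hα0
    (B := 2 * Real.exp (t ^ 2 / 2 * #Λ)) (by
      refine (expect_le_expect fun x _ => exp_abs_le _).trans ?_
      rw [expect_add_distrib]
      have a1 := rudin hΛ c hc t
      have a2 := rudin hΛ c hc (-t)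
      simp only [neg_mul, even_two, Even.neg_pow] at a2
      linarith)
  rw [mul_div_right_comm, Real.log_mul (by positivity) (Real.exp_pos _).ne', Real.log_exp] at h1
  refine le_trans (le_of_eq ?_) h1
  rw [mul_expect]
  refine expect_congr rfl fun x _ => ?_
  rw [abs_mul, abs_of_nonneg ht, Complex.re_sum]
  ring

/-- Chang's lemma: dissociated subsets of the large spectrum are small. -/
theorem chang_card (φ : G → ℂ) (hφ : ∀ x, ‖φ x‖ ≤ 1) {α ε : ℝ} (hα : 𝔼 x, ‖φ x‖ = α)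
    (hα0 : 0 < α) (hε : 0 < ε) {Λ : Finset (AddChar G ℂ)}
    (hΛ : AddDissociated (Λ : Set (AddChar G ℂ))) (hs : ∀ ψ ∈ Λ, ε * α ≤ ‖ft φ ψ‖) :
    (#Λ : ℝ) ≤ 8 / ε ^ 2 * Real.log (2 / α) := by
  have hc : ∀ ψ, ∃ c : ℂ, ‖c‖ ≤ 1 ∧ conj c * ft φ ψ = ‖ft φ ψ‖ := by
    intro ψ
    by_cases h : ft φ ψ = 0
    · exact ⟨0, by simp, by simp [h]⟩
    · have h' : (‖ft φ ψ‖ : ℂ) ≠ 0 := by simpa using h
      refine ⟨ft φ ψ / ‖ft φ ψ‖, by simp [h], ?_⟩
      rw [map_div₀, Complex.conj_ofReal, div_mul_eq_mul_div, Complex.conj_mul']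
      field_simp
  choose c hc1 hc2 using hc
  have h1 : ε * α * #Λ ≤ 𝔼 x, ‖φ x‖ * ‖∑ ψ ∈ Λ, c ψ * ψ x‖ := by
    have e : ((∑ ψ ∈ Λ, ‖ft φ ψ‖ : ℝ) : ℂ) = 𝔼 x, φ x * conj (∑ ψ ∈ Λ, c ψ * ψ x) := by
      push_cast
      simp only [← hc2, map_sum, mul_sum, map_mul]
      rw [expect_sum_comm]
      refine sum_congr rfl fun ψ _ => ?_
      rw [ft, mul_expect]
      exact expect_congr rfl fun x _ => by ring
    calc ε * α * #Λ = ∑ ψ ∈ Λ, ε * α := by rw [sum_const, nsmul_eq_mul, mul_comm]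
      _ ≤ ∑ ψ ∈ Λ, ‖ft φ ψ‖ := sum_le_sum hs
      _ = ‖((∑ ψ ∈ Λ, ‖ft φ ψ‖ : ℝ) : ℂ)‖ := by
          rw [Complex.norm_real, Real.norm_of_nonneg (sum_nonneg fun _ _ => norm_nonneg _)]
      _ ≤ _ := by
          rw [e]
          refine (norm_expect_le _).trans (le_of_eq (expect_congr rfl fun x _ => ?_))
          rw [norm_mul, Complex.norm_conj]
  have h2 := weight_abs_le hΛ c hc1 (fun x => ‖φ x‖) (fun x => norm_nonneg _) hφ hα hα0
    (t := ε / 2) (by positivity)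
  have h3 := weight_abs_le hΛ (fun ψ => -Complex.I * c ψ) (fun ψ => by simpa using hc1 ψ)
    (fun x => ‖φ x‖) (fun x => norm_nonneg _) hφ hα hα0 (t := ε / 2) (by positivity)
  have h4 : 𝔼 x, ‖φ x‖ * ‖∑ ψ ∈ Λ, c ψ * ψ x‖ ≤ 𝔼 x, ‖φ x‖ * |(∑ ψ ∈ Λ, c ψ * ψ x).re| +
      𝔼 x, ‖φ x‖ * |(∑ ψ ∈ Λ, -Complex.I * c ψ * ψ x).re| := by
    rw [← expect_add_distrib]
    refine expect_le_expect fun x _ => ?_
    rw [← mul_add]
    refine mul_le_mul_of_nonneg_left ?_ (norm_nonneg _)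
    refine (Complex.norm_le_abs_re_add_abs_im _).trans (le_of_eq ?_)
    simp only [mul_assoc, ← mul_sum]
    simp
  have h5 : ε / 2 * (ε * α * #Λ) ≤ 2 * (α * (Real.log (2 / α) + (ε / 2) ^ 2 / 2 * #Λ)) := by
    have := mul_le_mul_of_nonneg_left (h1.trans h4) (show 0 ≤ ε / 2 by positivity)
    linarith
  have h6 : α * (ε ^ 2 * #Λ) ≤ α * (8 * Real.log (2 / α)) := by nlinarith
  have h7 := le_of_mul_le_mul_left h6 hα0
  rw [div_mul_eq_mul_div, le_div_iff₀ (by positivity)]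
  linarith

/-- Chang's lemma: the large spectrum lies in the `{-1, 0, 1}`-span of few characters. -/
theorem chang [DecidableEq (AddChar G ℂ)] (φ : G → ℂ) (hφ : ∀ x, ‖φ x‖ ≤ 1) {α ε : ℝ}
    (hα : 𝔼 x, ‖φ x‖ = α) (hα0 : 0 < α) (hε : 0 < ε) :
    ∃ Λ : Finset (AddChar G ℂ), (#Λ : ℝ) ≤ 8 / ε ^ 2 * Real.log (2 / α) ∧
      (∀ ψ ∈ Λ, ε * α ≤ ‖ft φ ψ‖) ∧ ∀ ψ, ε * α ≤ ‖ft φ ψ‖ → ψ ∈ addSpan Λ := by
  obtain ⟨Λ, h1, h2, h3⟩ := exists_subset_addSpan_card_le_of_forall_addDissociated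
    (s := ({ψ | ε * α ≤ ‖ft φ ψ‖} : Finset (AddChar G ℂ)))
    (d := ⌊8 / ε ^ 2 * Real.log (2 / α)⌋₊) fun s' hs' hd =>
      Nat.le_floor (chang_card φ hφ hα hα0 hε hd fun ψ hψ => by simpa using hs' hψ)
  have h0 : 0 ≤ 8 / ε ^ 2 * Real.log (2 / α) := by
    simpa using chang_card φ hφ hα hα0 hε (Λ := ∅) (by simp) (by simp)
  exact ⟨Λ, (Nat.le_floor_iff h0).1 h2, fun ψ hψ => by simpa using h1 hψ,
    fun ψ hψ => h3 (by simpa using hψ)⟩

/-- Chang's lemma in Bohr form: the large spectrum is almost trivial on a Bohr set of small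
rank. -/
theorem chang_bohr (φ : G → ℂ) (hφ : ∀ x, ‖φ x‖ ≤ 1) {α ε : ℝ}
    (hα : 𝔼 x, ‖φ x‖ = α) (hα0 : 0 < α) (hε : 0 < ε) :
    ∃ Λ : Finset (AddChar G ℂ), (#Λ : ℝ) ≤ 8 / ε ^ 2 * Real.log (2 / α) ∧
      ∀ ρ, 0 ≤ ρ → ∀ x ∈ bohr Λ ρ, ∀ ψ, ε * α ≤ ‖ft φ ψ‖ → ‖ψ x - 1‖ ≤ #Λ * ρ := by
  classical
  obtain ⟨Λ, h1, -, h3⟩ := chang φ hφ hα hα0 hε
  exact ⟨Λ, h1, fun ρ hρ x hx ψ hψ => norm_sub_one_le_of_mem_addSpan hρ (h3 ψ hψ) hx⟩

end Pool.Agent.Shared.AddComb
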