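import Mathlib
import Pool.Agent.Shared.AddComb.Fourier

/-!
Almost periodicity (Croot-Sisask, in probability) and the Bogolyubov-Ruzsa-Sanders lemma.
-/

open Finset
open scoped ComplexConjugate BigOperators Pointwise

namespace Pool.Agent.Shared.AddComb

/-- One-sided Hoeffding inequality for sampling from a finite set. -/
theorem hoeffding_one {α : Type*} [DecidableEq α] (A : Finset α) (Y : α → ℝ)
    (hY : ∀ a ∈ A, |Y a| ≤ 1) (h0 : ∑ a ∈ A, Y a = 0) (k : ℕ) {ε : ℝ} (hε : 0 ≤ ε) :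
    (#{a ∈ Fintype.piFinset fun _ : Fin k => A | ε * k < ∑ i, Y (a i)} : ℝ) ≤
      Real.exp (-(ε ^ 2 * k / 2)) * #A ^ k := by
  have h1 : ∑ a ∈ A, Real.exp (ε * Y a) ≤ Real.exp (ε ^ 2 / 2) * #A := by
    calc _ ≤ ∑ a ∈ A, (Real.cosh ε + Real.sinh ε * Y a) :=
          sum_le_sum fun a ha => exp_mul_le (hY a ha)
      _ = Real.cosh ε * #A := by
          rw [sum_add_distrib, ← mul_sum, h0, sum_const, nsmul_eq_mul]
          ring
      _ ≤ _ := mul_le_mul_of_nonneg_right (Real.cosh_le_exp_half_sq ε) (Nat.cast_nonneg _)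
  have h2 : ∑ a ∈ Fintype.piFinset fun _ : Fin k => A, Real.exp (ε * ∑ i, Y (a i)) ≤
      (Real.exp (ε ^ 2 / 2) * #A) ^ k := by
    have := prod_univ_sum (fun _ : Fin k => A) (fun _ a => Real.exp (ε * Y a))
    simp only [mul_sum, Real.exp_sum]
    rw [← this, prod_const, card_univ, Fintype.card_fin]
    exact pow_le_pow_left₀ (sum_nonneg fun _ _ => (Real.exp_pos _).le) h1 k
  have h3 : (#{a ∈ Fintype.piFinset fun _ : Fin k => A | ε * k < ∑ i, Y (a i)} : ℝ) *
      Real.exp (ε * (ε * k)) ≤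
      ∑ a ∈ Fintype.piFinset fun _ : Fin k => A, Real.exp (ε * ∑ i, Y (a i)) := by
    rw [← nsmul_eq_mul, ← sum_const]
    refine le_trans (sum_le_sum fun a ha => Real.exp_le_exp.2
      (mul_le_mul_of_nonneg_left (mem_filter.1 ha).2.le hε)) ?_
    exact sum_le_sum_of_subset_of_nonneg (filter_subset _ _) fun _ _ _ => (Real.exp_pos _).le
  have h4 := h3.trans h2
  rw [← le_div_iff₀ (Real.exp_pos _), mul_pow, ← Real.exp_nat_mul, mul_div_right_comm,
    ← Real.exp_sub] at h4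
  refine h4.trans (le_of_eq ?_)
  congr 2
  ring

/-- Hoeffding's inequality for sampling from a finite set. -/
theorem hoeffding {α : Type*} [DecidableEq α] (A : Finset α) (Y : α → ℝ)
    (hY : ∀ a ∈ A, |Y a| ≤ 1) (h0 : ∑ a ∈ A, Y a = 0) (k : ℕ) {ε : ℝ} (hε : 0 ≤ ε) :
    (#{a ∈ Fintype.piFinset fun _ : Fin k => A | ε * k < |∑ i, Y (a i)|} : ℝ) ≤
      2 * Real.exp (-(ε ^ 2 * k / 2)) * #A ^ k := by
  have h1 := hoeffding_one A Y hY h0 k hε
  have h2 := hoeffding_one A (fun a => -Y a) (by simpa using hY) (by simp [h0]) k hε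
  have h3 : #{a ∈ Fintype.piFinset fun _ : Fin k => A | ε * k < |∑ i, Y (a i)|} ≤
      #{a ∈ Fintype.piFinset fun _ : Fin k => A | ε * k < ∑ i, Y (a i)} +
        #{a ∈ Fintype.piFinset fun _ : Fin k => A | ε * k < ∑ i, -Y (a i)} := by
    refine le_trans (card_le_card ?_) (card_union_le _ _)
    intro a ha
    simp only [mem_filter, mem_union, sum_neg_distrib] at ha ⊢
    rcases lt_abs.1 ha.2 with h | h
    · exact Or.inl ⟨ha.1, h⟩
    · exact Or.inr ⟨ha.1, h⟩
  have h4 : (#{a ∈ Fintype.piFinset fun _ : Fin k => A | ε * k < |∑ i, Y (a i)|} : ℝ) ≤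
      #{a ∈ Fintype.piFinset fun _ : Fin k => A | ε * k < ∑ i, Y (a i)} +
        #{a ∈ Fintype.piFinset fun _ : Fin k => A | ε * k < ∑ i, -Y (a i)} := by
    exact_mod_cast h3
  linarith

/-- Markov's inequality: at least half of the points have at most twice the average. -/
theorem half_le_card {α : Type*} (S : Finset α) (F : α → ℝ) (hF : ∀ a ∈ S, 0 ≤ F a) {m : ℝ}
    (hm : 0 < m) (h : ∑ a ∈ S, F a ≤ m * #S) : (#S : ℝ) ≤ 2 * #{a ∈ S | F a ≤ 2 * m} := by
  have a1 := card_filter_add_card_filter_not (s := S) (fun a => F a ≤ 2 * m)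
  have a2 : (#{a ∈ S | ¬ F a ≤ 2 * m} : ℝ) * (2 * m) ≤ ∑ a ∈ S, F a := by
    rw [← nsmul_eq_mul, ← sum_const]
    refine le_trans (sum_le_sum fun a ha => (not_le.1 (mem_filter.1 ha).2).le) ?_
    exact sum_le_sum_of_subset_of_nonneg (filter_subset _ _) fun a ha _ => hF a ha
  have a3 : (#{a ∈ S | F a ≤ 2 * m} : ℝ) + #{a ∈ S | ¬ F a ≤ 2 * m} = #S := by
    exact_mod_cast a1
  have a4 : (#{a ∈ S | ¬ F a ≤ 2 * m} : ℝ) * 2 * m ≤ #S * m := by nlinarith
  have a5 := le_of_mul_le_mul_right a4 hm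
  linarith

variable {G : Type*} [AddCommGroup G] [Fintype G] [DecidableEq G]

/-- The average of the translates of `f` along `A`. -/
noncomputable def avg (A : Finset G) (f : G → ℝ) (x : G) : ℝ := (∑ a ∈ A, f (x - a)) / #A

omit [DecidableEq G] in
theorem card_filter_translate (p : G → Prop) [DecidablePred p] (t : G) :
    #{x | p (x + t)} = #{x | p x} :=
  card_equiv (Equiv.addRight t) (by simp)

/-- The Croot-Sisask lemma, in probability. -/
theorem croot_sisask {A S : Finset G} (hA : A.Nonempty) (hS : S.Nonempty) (f : G → ℝ)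
    (hf0 : ∀ x, 0 ≤ f x) (hf1 : ∀ x, f x ≤ 1) {k : ℕ} (hk : 0 < k) {ε : ℝ} (hε : 0 ≤ ε) :
    ∃ T ⊆ S, ((#A : ℝ) / #(A + S)) ^ k * #S ≤ 2 * #T ∧ ∀ t ∈ T, ∀ t' ∈ T,
      (#{x | 2 * ε < |avg A f (x - t) - avg A f (x - t')|} : ℝ) ≤
        8 * Real.exp (-(ε ^ 2 * k / 2)) * Fintype.card G := by
  have hA0 : (0 : ℝ) < #A := by exact_mod_cast hA.card_pos
  have hG : (0 : ℝ) < Fintype.card G := card_pos_real
  have hk0 : (0 : ℝ) < k := by exact_mod_cast hk
  set δ := 2 * Real.exp (-(ε ^ 2 * k / 2)) with hδ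
  have hδ0 : 0 < δ := by positivity
  set P := Fintype.piFinset fun _ : Fin k => A with hP
  have hPc : (#P : ℝ) = #A ^ k := by simp [hP]
  set bad : (Fin k → G) → ℝ := fun a =>
    #{x | ε * k < |∑ i, (f (x - a i) - avg A f x)|} with hbad
  have h1 : ∑ a ∈ P, bad a ≤ δ * Fintype.card G * #P := by
    have e : ∑ a ∈ P, bad a =
        ∑ x, (#{a ∈ P | ε * k < |∑ i, (f (x - a i) - avg A f x)|} : ℝ) := by
      simp only [hbad, card_filter]
      push_cast
      rw [sum_comm]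
    rw [e, hPc]
    refine (sum_le_card_nsmul _ _ (δ * #A ^ k) fun x _ => ?_).trans (le_of_eq ?_)
    · have g0 : 0 ≤ avg A f x := div_nonneg (sum_nonneg fun a _ => hf0 _) hA0.le
      have g1 : avg A f x ≤ 1 := by
        rw [avg, div_le_one hA0]
        simpa using sum_le_card_nsmul A (fun a => f (x - a)) 1 fun a _ => hf1 _
      refine hoeffding A (fun a => f (x - a) - avg A f x) (fun a _ => ?_) ?_ k hε
      · exact abs_le.2 ⟨by linarith [hf0 (x - a)], by linarith [hf1 (x - a)]⟩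
      · rw [sum_sub_distrib, sum_const, nsmul_eq_mul, avg]
        field_simp
        ring
    · rw [nsmul_eq_mul, card_univ]
      ring
  set L := {a ∈ P | bad a ≤ 2 * (δ * Fintype.card G)} with hL
  have h2 : (#P : ℝ) ≤ 2 * #L :=
    half_le_card P bad (fun _ _ => Nat.cast_nonneg _) (by positivity) h1
  set Q := Fintype.piFinset fun _ : Fin k => A + S with hQ
  have hQc : (#Q : ℝ) = #(A + S) ^ k := by simp [hQ]
  have hAS : (0 : ℝ) < #(A + S) := by exact_mod_cast (hA.add hS).card_pos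
  obtain ⟨b, -, hb⟩ := exists_le_sum_fiber_of_maps_to_of_nsmul_le_sum (s := L ×ˢ S) (t := Q)
    (f := fun p i => p.1 i + p.2) (w := fun _ => (1 : ℝ))
    (b := ((#A : ℝ) / #(A + S)) ^ k * #S / 2)
    (fun p hp => by
      rw [mem_product, hL, mem_filter, hP, Fintype.mem_piFinset] at hp
      rw [hQ, Fintype.mem_piFinset]
      exact fun i => add_mem_add (hp.1.1 i) hp.2)
    (by
      rw [hQ, Fintype.piFinset_nonempty]
      exact fun _ => hA.add hS)
    (by
      rw [nsmul_eq_mul, sum_const, nsmul_eq_mul, mul_one, card_product, hQc, div_pow]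
      push_cast
      have : (#(A + S) : ℝ) ^ k * (#A ^ k / #(A + S) ^ k * #S / 2) = #A ^ k / 2 * #S := by
        field_simp
      rw [this]
      exact mul_le_mul_of_nonneg_right (by linarith) (Nat.cast_nonneg _))
  refine ⟨{t ∈ S | (fun i => b i - t) ∈ L}, filter_subset _ _, ?_, ?_⟩
  · rw [sum_const, nsmul_eq_mul, mul_one] at hb
    have : #{p ∈ L ×ˢ S | (fun i => p.1 i + p.2) = b} ≤ #{t ∈ S | (fun i => b i - t) ∈ L} := by
      refine card_le_card_of_injOn (fun p => p.2) ?_ ?_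
      · intro p hp
        simp only [coe_filter, mem_product, Set.mem_ofPred_eq] at hp ⊢
        refine ⟨hp.1.2, ?_⟩
        have : (fun i => b i - p.2) = p.1 := by
          funext i
          rw [← hp.2]
          simp
        rw [this]
        exact hp.1.1
      · intro p hp p' hp' h
        simp only [coe_filter, mem_product, Set.mem_ofPred_eq] at hp hp' h
        refine Prod.ext ?_ h
        funext i
        have := congrFun (hp.2.trans hp'.2.symm) i
        simpa [h] using this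
    have h3 : (#{p ∈ L ×ˢ S | (fun i => p.1 i + p.2) = b} : ℝ) ≤
        #{t ∈ S | (fun i => b i - t) ∈ L} := by exact_mod_cast this
    linarith
  · have key : ∀ t, (fun i => b i - t) ∈ L →
        (#{x | ε * k < |∑ i, (f (x - b i) - avg A f (x - t))|} : ℝ) ≤
          2 * (δ * Fintype.card G) := by
      intro t ht
      have := (mem_filter.1 ht).2
      simp only [hbad] at this
      rw [← card_filter_translate _ t]
      refine le_trans (le_of_eq ?_) this
      congr 2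
      ext x
      have e : ∀ i, x + t - b i = x - (b i - t) := fun i => by abel
      simp only [mem_filter, mem_univ, true_and, e, add_sub_cancel_right]
    intro t ht t' ht'
    have k1 := key t (mem_filter.1 ht).2
    have k2 := key t' (mem_filter.1 ht').2
    have h3 : #{x | 2 * ε < |avg A f (x - t) - avg A f (x - t')|} ≤
        #{x | ε * k < |∑ i, (f (x - b i) - avg A f (x - t))|} +
          #{x | ε * k < |∑ i, (f (x - b i) - avg A f (x - t'))|} := by
      refine le_trans (card_le_card ?_) (card_union_le _ _)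
      intro x hx
      simp only [mem_filter, mem_univ, true_and, mem_union] at hx ⊢
      by_contra hc
      push Not at hc
      obtain ⟨c1, c2⟩ := hc
      rw [sum_sub_distrib, sum_const, card_univ, Fintype.card_fin, nsmul_eq_mul, abs_le] at c1 c2
      have : |avg A f (x - t) - avg A f (x - t')| * k ≤ 2 * ε * k := by
        rw [← abs_of_pos hk0, ← abs_mul, abs_of_pos hk0, abs_le]
        constructor <;> nlinarith [c1.1, c1.2, c2.1, c2.2]
      exact absurd (le_of_mul_le_mul_right this hk0) (not_le.2 hx)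
    have h4 : (#{x | 2 * ε < |avg A f (x - t) - avg A f (x - t')|} : ℝ) ≤
        #{x | ε * k < |∑ i, (f (x - b i) - avg A f (x - t))|} +
          #{x | ε * k < |∑ i, (f (x - b i) - avg A f (x - t'))|} := by exact_mod_cast h3
    rw [hδ] at k1 k2
    linarith

/-- The normalised Fourier coefficient of a set. -/
noncomputable def chi (A : Finset G) (ψ : AddChar G ℂ) : ℂ := (∑ a ∈ A, conj (ψ a)) / #A

omit [DecidableEq G] in
theorem norm_chi_le (A : Finset G) (ψ : AddChar G ℂ) : ‖chi A ψ‖ ≤ 1 := by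
  rw [chi, norm_div, Complex.norm_natCast]
  refine div_le_one_of_le₀ ((norm_sum_le _ _).trans (le_of_eq ?_)) (Nat.cast_nonneg _)
  simp

theorem ft_indicator {A : Finset G} (hA : A.Nonempty) (ψ : AddChar G ℂ) :
    ft (fun x => if x ∈ A then 1 else 0) ψ = (#A / Fintype.card G : ℝ) * chi A ψ := by
  have hA0 : (#A : ℂ) ≠ 0 := by exact_mod_cast hA.card_pos.ne'
  rw [ft, expect_eq', chi]
  simp only [ite_mul, one_mul, zero_mul, sum_ite_mem, univ_inter]
  push_cast
  field_simp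

omit [AddCommGroup G] in
theorem expect_norm_indicator (A : Finset G) :
    𝔼 x, ‖(if x ∈ A then 1 else 0 : ℂ)‖ = (#A / Fintype.card G : ℝ) := by
  rw [expect_eq]
  congr 1
  simp only [apply_ite norm, norm_one, norm_zero, sum_ite_mem, univ_inter, sum_const,
    nsmul_eq_mul, mul_one]

theorem sum_norm_chi_sq {A : Finset G} (hA : A.Nonempty) :
    ∑ ψ : AddChar G ℂ, ‖chi A ψ‖ ^ 2 = Fintype.card G / #A := by
  have hA0 : (0 : ℝ) < #A := by exact_mod_cast hA.card_pos
  have hG : (0 : ℝ) < Fintype.card G := card_pos_real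
  have h1 := parseval (fun x => if x ∈ A then (1 : ℂ) else 0)
  have h2 : 𝔼 x, ‖(if x ∈ A then 1 else 0 : ℂ)‖ ^ 2 = (#A / Fintype.card G : ℝ) := by
    rw [← expect_norm_indicator]
    refine expect_congr rfl fun x _ => ?_
    split_ifs <;> simp
  simp only [ft_indicator hA, norm_mul, mul_pow, ← mul_sum, Complex.norm_real,
    Real.norm_of_nonneg (div_pos hA0 hG).le] at h1
  rw [h2] at h1
  field_simp at h1 ⊢
  linarith

omit [DecidableEq G] in
theorem ft_avg (A : Finset G) (f : G → ℝ) (ψ : AddChar G ℂ) :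
    ft (fun x => (avg A f x : ℂ)) ψ = chi A ψ * ft (fun x => (f x : ℂ)) ψ := by
  have e : (fun x => (avg A f x : ℂ)) =
      fun x => (#A : ℂ)⁻¹ * ∑ a ∈ A, (fun y => (f y : ℂ)) (x + -a) := by
    funext x
    simp only [avg, sub_eq_add_neg]
    push_cast
    ring
  rw [e, ft_const_mul, ft_sum A (fun a x => (fun y => (f y : ℂ)) (x + -a))]
  simp only [ft_translate (fun y => (f y : ℂ)), AddChar.map_neg_eq_conj, ← sum_mul, chi]
  ring

omit [DecidableEq G] in
theorem ft_avg_iterate (A : Finset G) (f : G → ℝ) (ψ : AddChar G ℂ) (l : ℕ) :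
    ft (fun x => (((avg A)^[l] f) x : ℂ)) ψ = chi A ψ ^ l * ft (fun x => (f x : ℂ)) ψ := by
  induction l with
  | zero => simp
  | succ l ih => rw [Function.iterate_succ_apply', ft_avg, ih]; ring

omit [Fintype G] [DecidableEq G] in
theorem abs_avg_sub_le {A : Finset G} (hA : A.Nonempty) (f : G → ℝ) (x : G) (c κ : ℝ)
    (h : ∀ a ∈ A, |f (x - a) - c| ≤ κ) : |avg A f x - c| ≤ κ := by
  have hA0 : (0 : ℝ) < #A := by exact_mod_cast hA.card_pos
  have e : avg A f x - c = (∑ a ∈ A, (f (x - a) - c)) / #A := by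
    rw [avg, sum_sub_distrib, sum_const, nsmul_eq_mul]
    field_simp
  rw [e, abs_div, abs_of_pos hA0, div_le_iff₀ hA0]
  refine (abs_sum_le_sum_abs _ _).trans ?_
  simpa [mul_comm] using sum_le_card_nsmul A _ κ h

omit [Fintype G] [DecidableEq G] in
theorem abs_avg_iterate_sub_le {T : Finset G} (hT : T.Nonempty) (F : G → ℝ) (κ : ℝ)
    (h : ∀ t ∈ T, ∀ y, |F (y - t) - F y| ≤ κ) (l : ℕ) (y : G) :
    |((avg T)^[l] F) y - F y| ≤ l * κ := by
  induction l generalizing y with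
  | zero => simp
  | succ l ih =>
    rw [Function.iterate_succ_apply']
    refine abs_avg_sub_le hT _ _ _ _ fun t ht => ?_
    have h1 := ih (y - t)
    have h2 := h t ht y
    push_cast
    rw [abs_le] at h1 h2 ⊢
    constructor <;> linarith [h1.1, h1.2, h2.1, h2.2]

omit [Fintype G] [DecidableEq G] in
theorem avg_mem {A : Finset G} (f : G → ℝ) (hf0 : ∀ x, 0 ≤ f x) (hf1 : ∀ x, f x ≤ 1) (x : G) :
    0 ≤ avg A f x ∧ avg A f x ≤ 1 := by
  refine ⟨div_nonneg (sum_nonneg fun a _ => hf0 _) (Nat.cast_nonneg _), ?_⟩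
  refine div_le_one_of_le₀ ?_ (Nat.cast_nonneg _)
  simpa using sum_le_card_nsmul A (fun a => f (x - a)) 1 fun a _ => hf1 _

/-- A dense set of uniform almost periods of a threefold convolution. -/
theorem exists_periods {A B : Finset G} (hA : A.Nonempty) (hB : B.Nonempty) (f : G → ℝ)
    (hf0 : ∀ x, 0 ≤ f x) (hf1 : ∀ x, f x ≤ 1) {k : ℕ} (hk : 0 < k) {ε : ℝ} (hε : 0 ≤ ε) :
    ∃ T : Finset G, ((#A : ℝ) / Fintype.card G) ^ k * Fintype.card G ≤ 2 * #T ∧ ∀ t ∈ T, ∀ y,
      |avg B (avg A f) (y - t) - avg B (avg A f) y| ≤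
        2 * ε + 8 * Real.exp (-(ε ^ 2 * k / 2)) * (Fintype.card G / #B) := by
  have hA0 : (0 : ℝ) < #A := by exact_mod_cast hA.card_pos
  have hB0 : (0 : ℝ) < #B := by exact_mod_cast hB.card_pos
  have hG : (0 : ℝ) < Fintype.card G := card_pos_real
  obtain ⟨T, -, h1, h2⟩ := croot_sisask hA (S := univ) univ_nonempty f hf0 hf1 hk hε
  have hu : A + univ = univ := by
    obtain ⟨a, ha⟩ := hA
    exact eq_univ_iff_forall.2 fun x => mem_add.2 ⟨a, ha, x - a, mem_univ _, by abel⟩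
  rw [hu, card_univ] at h1
  have hT : T.Nonempty := by
    have : (0 : ℝ) < 2 * #T := lt_of_lt_of_le (by positivity) h1
    exact card_pos.1 (by exact_mod_cast (by linarith : (0 : ℝ) < #T))
  obtain ⟨t0, ht0⟩ := hT
  refine ⟨T.image (· - t0), by rwa [card_image_of_injective _ sub_left_injective], ?_⟩
  intro t ht y
  obtain ⟨s, hs, rfl⟩ := mem_image.1 ht
  set g := avg A f with hg
  set E : Finset G := {x | 2 * ε < |g (x - s) - g (x - t0)|} with hE
  have h3 : ∀ c, |g (y - (s - t0) - c) - g (y - c)| ≤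
      2 * ε + if y + t0 - c ∈ E then 1 else 0 := by
    intro c
    have e1 : y - (s - t0) - c = y + t0 - c - s := by abel
    have e2 : y - c = y + t0 - c - t0 := by abel
    rw [e1, e2]
    split_ifs with h
    · have a1 := avg_mem (A := A) f hf0 hf1 (y + t0 - c - s)
      have a2 := avg_mem (A := A) f hf0 hf1 (y + t0 - c - t0)
      rw [abs_le]
      constructor <;> linarith [a1.1, a1.2, a2.1, a2.2]
    · simpa [hE] using h
  have h4 : (#{c ∈ B | y + t0 - c ∈ E} : ℝ) ≤ #E := by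
    exact_mod_cast card_le_card_of_injOn (fun c => y + t0 - c)
      (fun c hc => (mem_filter.1 hc).2) (fun c _ c' _ h => by simpa using h)
  rw [avg, avg, ← sub_div, ← sum_sub_distrib, abs_div, abs_of_pos hB0, div_le_iff₀ hB0]
  refine (abs_sum_le_sum_abs _ _).trans ((sum_le_sum fun c _ => h3 c).trans ?_)
  rw [sum_add_distrib, sum_const, nsmul_eq_mul, sum_boole]
  have h5 := h2 s hs t0 ht0
  have e : (2 * ε + 8 * Real.exp (-(ε ^ 2 * k / 2)) * (Fintype.card G / #B)) * #B =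
      #B * (2 * ε) + 8 * Real.exp (-(ε ^ 2 * k / 2)) * Fintype.card G := by
    field_simp
  rw [e]
  linarith

theorem sum_norm_ft_avg_le {A : Finset G} (hA : A.Nonempty) (B : Finset G) (f : G → ℝ)
    (hf0 : ∀ x, 0 ≤ f x) (hf1 : ∀ x, f x ≤ 1) :
    ∑ ψ : AddChar G ℂ, ‖ft (fun x => (avg B (avg A f) x : ℂ)) ψ‖ ≤ Fintype.card G / #A := by
  have hA0 : (0 : ℝ) < #A := by exact_mod_cast hA.card_pos
  have h1 : (1 : ℝ) ≤ Fintype.card G / #A := by
    rw [one_le_div hA0]
    exact_mod_cast card_le_univ A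
  have h2 : ∑ ψ : AddChar G ℂ, ‖ft (fun x => (f x : ℂ)) ψ‖ ^ 2 ≤ 1 := by
    rw [parseval]
    refine expect_le univ_nonempty fun x _ => ?_
    rw [Complex.norm_real, Real.norm_of_nonneg (hf0 x)]
    exact pow_le_one₀ (hf0 x) (hf1 x)
  calc _ ≤ ∑ ψ : AddChar G ℂ, (‖chi A ψ‖ ^ 2 + ‖ft (fun x => (f x : ℂ)) ψ‖ ^ 2) / 2 := by
        refine sum_le_sum fun ψ _ => ?_
        rw [ft_avg, ft_avg, norm_mul, norm_mul]
        refine (mul_le_of_le_one_left (by positivity) (norm_chi_le B ψ)).trans ?_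
        nlinarith [sq_nonneg (‖chi A ψ‖ - ‖ft (fun x => (f x : ℂ)) ψ‖)]
    _ ≤ _ := by
        rw [← sum_div, sum_add_distrib, sum_norm_chi_sq hA]
        linarith

/-- From a dense set of almost periods to a Bohr set of almost periods. -/
theorem bohr_of_periods {T : Finset G} (hT : T.Nonempty) :
    ∃ Λ : Finset (AddChar G ℂ), (#Λ : ℝ) ≤ 32 * Real.log (2 / (#T / Fintype.card G)) ∧
      ∀ (F : G → ℝ) (κ : ℝ), (∀ t ∈ T, ∀ y, |F (y - t) - F y| ≤ κ) → ∀ (l : ℕ) (ρ : ℝ), 0 ≤ ρ →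
        ∀ b ∈ bohr Λ ρ, ∀ y, |F (y + b) - F y| ≤ 2 * (l * κ) +
          (∑ ψ : AddChar G ℂ, ‖ft (fun x => (F x : ℂ)) ψ‖) * (#Λ * ρ + 2 * (1 / 2) ^ l) := by
  have hT0 : (0 : ℝ) < #T := by exact_mod_cast hT.card_pos
  have hG : (0 : ℝ) < Fintype.card G := card_pos_real
  obtain ⟨Λ, h1, h2⟩ := chang_bohr (fun x => if x ∈ T then (1 : ℂ) else 0)
    (fun x => by split_ifs <;> simp) (expect_norm_indicator T) (div_pos hT0 hG)
    (ε := 1 / 2) (by norm_num)
  refine ⟨Λ, h1.trans (le_of_eq (by norm_num)), fun F κ hF l ρ hρ b hb y => ?_⟩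
  have a1 := abs_avg_iterate_sub_le hT F κ hF l (y + b)
  have a2 := abs_avg_iterate_sub_le hT F κ hF l y
  have a3 : |((avg T)^[l] F) (y + b) - ((avg T)^[l] F) y| ≤
      (∑ ψ : AddChar G ℂ, ‖ft (fun x => (F x : ℂ)) ψ‖) * (#Λ * ρ + 2 * (1 / 2) ^ l) := by
    rw [← Real.norm_eq_abs, ← Complex.norm_real, Complex.ofReal_sub,
      ← ft_inversion (fun x => (((avg T)^[l] F) x : ℂ)) (y + b),
      ← ft_inversion (fun x => (((avg T)^[l] F) x : ℂ)) y, ← sum_sub_distrib, sum_mul]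
    refine (norm_sum_le _ _).trans (sum_le_sum fun ψ _ => ?_)
    have e : ft (fun x => (((avg T)^[l] F) x : ℂ)) ψ * ψ (y + b) -
        ft (fun x => (((avg T)^[l] F) x : ℂ)) ψ * ψ y =
        ft (fun x => (F x : ℂ)) ψ * (chi T ψ ^ l * (ψ b - 1) * ψ y) := by
      rw [ft_avg_iterate, AddChar.map_add_eq_mul]
      ring
    rw [e, norm_mul]
    refine mul_le_mul_of_nonneg_left ?_ (norm_nonneg _)
    rw [norm_mul, AddChar.norm_apply, mul_one, norm_mul, norm_pow]
    have p1 : (0 : ℝ) ≤ #Λ * ρ := by positivity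
    have p2 : (0 : ℝ) ≤ 2 * (1 / 2) ^ l := by positivity
    by_cases h : 1 / 2 ≤ ‖chi T ψ‖
    · have := h2 ρ hρ b hb ψ (by
        rw [ft_indicator hT, norm_mul, Complex.norm_real,
          Real.norm_of_nonneg (div_pos hT0 hG).le, mul_comm]
        exact mul_le_mul_of_nonneg_left h (div_pos hT0 hG).le)
      have := mul_le_of_le_one_left (norm_nonneg (ψ b - 1))
        (pow_le_one₀ (n := l) (norm_nonneg _) (norm_chi_le T ψ))
      linarith
    · have b1 : ‖chi T ψ‖ ^ l ≤ (1 / 2) ^ l :=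
        pow_le_pow_left₀ (norm_nonneg _) (not_le.1 h).le l
      have b2 : ‖ψ b - 1‖ ≤ 2 := (norm_sub_le _ _).trans (by simp; norm_num)
      have := mul_le_mul b1 b2 (norm_nonneg _) (by positivity)
      linarith
  rw [abs_le] at a1 a2 a3 ⊢
  constructor <;> linarith [a1.1, a1.2, a2.1, a2.2, a3.1, a3.2]

/-- Uniform almost periodicity of a threefold convolution along a Bohr set of polylogarithmic
rank. -/
theorem periodic_bohr {A B : Finset G} (f : G → ℝ)
    (hf0 : ∀ x, 0 ≤ f x) (hf1 : ∀ x, f x ≤ 1) {L η : ℝ} (hL : 1 ≤ L)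
    (hA : Real.exp (-L) * Fintype.card G ≤ #A) (hB : Real.exp (-L) * Fintype.card G ≤ #B)
    (hη : Real.exp (-L) ≤ η) (hη1 : η ≤ 1) :
    ∃ Λ : Finset (AddChar G ℂ), (#Λ : ℝ) ≤ 10 ^ 8 * L ^ 4 / η ^ 2 ∧
      ∀ ρ : ℝ, 0 ≤ ρ → #Λ * ρ ≤ Real.exp (-L) * η / 3 → ∀ b ∈ bohr Λ ρ, ∀ y,
        |avg B (avg A f) (y + b) - avg B (avg A f) y| ≤ η := by
  have hG : (0 : ℝ) < Fintype.card G := card_pos_real
  have hE := Real.exp_pos (-L)
  have hη0 : 0 < η := hE.trans_le hη
  have hA0 : (0 : ℝ) < #A := (mul_pos hE hG).trans_le hA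
  have hB0 : (0 : ℝ) < #B := (mul_pos hE hG).trans_le hB
  have hAn : A.Nonempty := card_pos.1 (by exact_mod_cast hA0)
  have hBn : B.Nonempty := card_pos.1 (by exact_mod_cast hB0)
  have hL0 : 0 < L := by linarith
  have hA' : (Fintype.card G : ℝ) / #A ≤ Real.exp L := by
    rw [div_le_iff₀ hA0]
    have := mul_le_mul_of_nonneg_left hA (Real.exp_pos L).le
    rwa [← mul_assoc, ← Real.exp_add, add_neg_cancel, Real.exp_zero, one_mul] at this
  have hB' : (Fintype.card G : ℝ) / #B ≤ Real.exp L := by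
    rw [div_le_iff₀ hB0]
    have := mul_le_mul_of_nonneg_left hB (Real.exp_pos L).le
    rwa [← mul_assoc, ← Real.exp_add, add_neg_cancel, Real.exp_zero, one_mul] at this
  have hEL : Real.exp L * Real.exp (-L) = 1 := by
    rw [← Real.exp_add, add_neg_cancel, Real.exp_zero]
  set ε := η / (200 * L) with hε
  have hε0 : 0 < ε := by positivity
  set k := ⌈20 * L / ε ^ 2⌉₊ with hk
  set l := ⌈3 * L⌉₊ + 4 with hl
  have hk1 : 20 * L / ε ^ 2 ≤ k := Nat.le_ceil _
  have hk0 : 0 < k := Nat.ceil_pos.2 (by positivity)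
  have hk2 : (k : ℝ) ≤ 10 ^ 6 * L ^ 3 / η ^ 2 := by
    have a1 : (k : ℝ) < 20 * L / ε ^ 2 + 1 := Nat.ceil_lt_add_one (by positivity)
    have a2 : 20 * L / ε ^ 2 = 800000 * (L ^ 3 / η ^ 2) := by
      rw [hε]
      field_simp
      norm_num
    have a3 : 1 ≤ L ^ 3 / η ^ 2 := by
      rw [one_le_div (by positivity)]
      exact (pow_le_one₀ hη0.le hη1).trans (one_le_pow₀ hL)
    rw [mul_div_assoc]
    linarith
  have hl1 : 3 * L + 4 ≤ l := by
    have := Nat.le_ceil (3 * L)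
    push_cast [hl]
    linarith
  have hl2 : (l : ℝ) ≤ 8 * L := by
    have : (⌈3 * L⌉₊ : ℝ) < 3 * L + 1 := Nat.ceil_lt_add_one (by positivity)
    push_cast [hl]
    linarith
  obtain ⟨T, hT1, hT2⟩ := exists_periods hAn hBn f hf0 hf1 hk0 hε0.le
  have hT0 : (0 : ℝ) < #T := by
    have : (0 : ℝ) < 2 * #T := lt_of_lt_of_le (by positivity) hT1
    linarith
  obtain ⟨Λ, h1, h2⟩ := bohr_of_periods (card_pos.1 (by exact_mod_cast hT0) : T.Nonempty)
  refine ⟨Λ, h1.trans ?_, fun ρ hρ hρ' b hb y => (h2 _ _ hT2 l ρ hρ b hb y).trans ?_⟩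
  · have a1 : 2 / ((#T : ℝ) / Fintype.card G) ≤ Real.exp (2 + L * k) := by
      have b1 : Real.exp (-L) ^ k ≤ ((#A : ℝ) / Fintype.card G) ^ k :=
        pow_le_pow_left₀ hE.le (by rwa [le_div_iff₀ hG]) k
      have b2 : Real.exp (-L) ^ k * Fintype.card G ≤ 2 * #T :=
        (mul_le_mul_of_nonneg_right b1 hG.le).trans hT1
      have b3 : Real.exp (L * k) * Real.exp (-L) ^ k = 1 := by
        rw [← Real.exp_nat_mul, ← Real.exp_add, ← Real.exp_zero]
        congr 1
        ring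
      have b4 : (4 : ℝ) ≤ Real.exp 2 := by
        have := Real.add_one_le_exp (1 : ℝ)
        have e : Real.exp 2 = Real.exp 1 * Real.exp 1 := by rw [← Real.exp_add]; norm_num
        nlinarith
      have b5 := mul_le_mul_of_nonneg_left b2 (Real.exp_pos (L * k)).le
      rw [← mul_assoc, b3, one_mul] at b5
      rw [div_div_eq_mul_div, div_le_iff₀ hT0, Real.exp_add]
      have b6 := mul_le_mul_of_nonneg_right b4 (mul_pos (Real.exp_pos (L * k)) hT0).le
      nlinarith
    have a2 := Real.log_le_log (by positivity) a1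
    rw [Real.log_exp] at a2
    have a3 : L * k ≤ 10 ^ 6 * (L ^ 4 / η ^ 2) := by
      refine (mul_le_mul_of_nonneg_left hk2 hL0.le).trans (le_of_eq ?_)
      ring
    have a4 : 1 ≤ L ^ 4 / η ^ 2 := by
      rw [one_le_div (by positivity)]
      exact (pow_le_one₀ hη0.le hη1).trans (one_le_pow₀ hL)
    rw [mul_div_assoc]
    linarith
  · have a1 : 8 * Real.exp (-(ε ^ 2 * k / 2)) * (Fintype.card G / #B) ≤ 2 * ε := by
      have b1 : Real.exp (-(ε ^ 2 * k / 2)) ≤ Real.exp (-(10 * L)) := by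
        rw [div_le_iff₀ (by positivity)] at hk1
        exact Real.exp_le_exp.2 (by linarith)
      have b2 : Real.exp (-(10 * L)) * Real.exp L = Real.exp (-L) * (Real.exp (8 * L))⁻¹ := by
        rw [← Real.exp_neg, ← Real.exp_add, ← Real.exp_add]
        congr 1
        ring
      have b3 : 800 * L ≤ Real.exp (8 * L) := by
        have c1 := Real.add_one_le_exp L
        have c2 : Real.exp (8 * L) = Real.exp L * Real.exp (7 * L) := by
          rw [← Real.exp_add]; congr 1; ring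
        have c3 : Real.exp 7 ≤ Real.exp (7 * L) := Real.exp_le_exp.2 (by linarith)
        have c4 : (800 : ℝ) ≤ Real.exp 7 := by
          have d1 := Real.exp_one_gt_d9
          have d2 : Real.exp 7 = Real.exp 1 ^ 7 := by rw [← Real.exp_nat_mul]; norm_num
          have d3 : (2.7 : ℝ) ^ 7 ≤ Real.exp 1 ^ 7 := pow_le_pow_left₀ (by norm_num) (by linarith) 7
          rw [d2]
          exact le_trans (by norm_num) d3
        rw [c2]
        nlinarith
      have b4 : (Real.exp (8 * L))⁻¹ ≤ (800 * L)⁻¹ := inv_anti₀ (by positivity) b3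
      calc _ ≤ 8 * Real.exp (-(10 * L)) * Real.exp L := by gcongr
        _ = 8 * (Real.exp (-L) * (Real.exp (8 * L))⁻¹) := by rw [mul_assoc, b2]
        _ ≤ 8 * (η * (800 * L)⁻¹) := by gcongr
        _ = 2 * ε := by
          rw [hε]
          field_simp
          norm_num
    have a2 : 2 * (l * (2 * ε + 8 * Real.exp (-(ε ^ 2 * k / 2)) * (Fintype.card G / #B))) ≤
        η / 3 := by
      calc _ ≤ 2 * (8 * L * (2 * ε + 2 * ε)) := by gcongr
        _ = 64 / 200 * η := by
          rw [hε]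
          field_simp
          norm_num
        _ ≤ η / 3 := by linarith
    have a3 : 2 * (1 / 2 : ℝ) ^ l ≤ Real.exp (-L) * η / 3 := by
      have b1 : (1 / 2 : ℝ) ^ l = Real.exp (-(l * Real.log 2)) := by
        rw [Real.exp_neg, Real.exp_nat_mul, Real.exp_log (by norm_num), one_div, inv_pow]
      have b2 := Real.log_two_gt_d9
      have b3 : Real.exp (-(l * Real.log 2)) ≤ Real.exp (-L + -L + -2) :=
        Real.exp_le_exp.2 (by nlinarith)
      have b4 : Real.exp (-2) ≤ 1 / 6 := by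
        rw [Real.exp_neg, one_div]
        refine inv_anti₀ (by norm_num) ?_
        have d1 := Real.exp_one_gt_d9
        have e : Real.exp 2 = Real.exp 1 * Real.exp 1 := by rw [← Real.exp_add]; norm_num
        nlinarith
      rw [Real.exp_add, Real.exp_add] at b3
      have b5 : Real.exp (-L) * Real.exp (-L) * Real.exp (-2) ≤ Real.exp (-L) * η * (1 / 6) := by
        gcongr
      rw [b1]
      linarith
    have a4 := (sum_norm_ft_avg_le hAn B f hf0 hf1).trans hA'
    have a5 := mul_le_mul a4 (add_le_add hρ' a3) (by positivity) (Real.exp_pos L).le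
    have a6 : Real.exp L * (Real.exp (-L) * η / 3 + Real.exp (-L) * η / 3) = 2 * η / 3 := by
      linear_combination (2 * η / 3) * hEL
    linarith

/-- The Bogolyubov-Ruzsa-Sanders lemma: a Bohr set of polylogarithmic rank lies in `2A - 2A`,
with many representations. -/
theorem sanders {A : Finset G} {L : ℝ} (hL : 1 ≤ L) (hA : Real.exp (-L) * Fintype.card G ≤ #A) :
    ∃ Λ : Finset (AddChar G ℂ), (#Λ : ℝ) ≤ 10 ^ 9 * L ^ 4 ∧
      ∀ ρ : ℝ, 0 ≤ ρ → #Λ * ρ ≤ Real.exp (-L) / 6 → ∀ b ∈ bohr Λ ρ,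
        (#A : ℝ) ^ 2 ≤ 2 * #{p ∈ A ×ˢ A | b + p.1 - p.2 ∈ A - A} := by
  have hG : (0 : ℝ) < Fintype.card G := card_pos_real
  have hA0 : (0 : ℝ) < #A := (mul_pos (Real.exp_pos _) hG).trans_le hA
  have hE : Real.exp (-L) ≤ 1 / 2 := by
    have a1 : Real.exp (-L) ≤ Real.exp (-1) := Real.exp_le_exp.2 (by linarith)
    refine a1.trans ?_
    rw [Real.exp_neg, one_div]
    exact inv_anti₀ (by norm_num) (by linarith [Real.exp_one_gt_d9])
  obtain ⟨Λ, h1, h2⟩ := periodic_bohr (A := A) (B := -A)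
    (fun x => if x ∈ A - A then (1 : ℝ) else 0) (fun x => by positivity)
    (fun x => by split_ifs <;> norm_num) hL hA (by rwa [card_neg]) hE (by norm_num)
  have e : ∀ y, avg (-A) (avg A fun x => if x ∈ A - A then (1 : ℝ) else 0) y =
      #{p ∈ A ×ˢ A | y + p.1 - p.2 ∈ A - A} / #A ^ 2 := by
    intro y
    rw [avg, card_neg, sum_neg_index, card_filter, sum_product]
    simp only [avg, sub_neg_eq_add, ← sum_div]
    push_cast
    field_simp
  refine ⟨Λ, h1.trans ?_, fun ρ hρ hρ' b hb => ?_⟩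
  · have : 0 ≤ L ^ 4 := by positivity
    rw [div_le_iff₀ (by norm_num)]
    nlinarith
  · have h3 := h2 ρ hρ (by linarith) b hb 0
    have h4 : {p ∈ A ×ˢ A | 0 + p.1 - p.2 ∈ A - A} = A ×ˢ A :=
      filter_eq_self.2 fun p hp => by
        rw [zero_add]
        exact sub_mem_sub (mem_product.1 hp).1 (mem_product.1 hp).2
    rw [e, e, h4, zero_add, card_product, Nat.cast_mul, ← sq, div_self (by positivity),
      abs_le] at h3
    have h5 : 1 / 2 ≤ (#{p ∈ A ×ˢ A | b + p.1 - p.2 ∈ A - A} : ℝ) / #A ^ 2 := by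
      linarith [h3.1]
    rw [le_div_iff₀ (by positivity)] at h5
    linarith

/-- The Bohr set of `sanders` lies in `2A - 2A`. -/
theorem sanders_subset {A : Finset G} {L : ℝ} (hL : 1 ≤ L)
    (hA : Real.exp (-L) * Fintype.card G ≤ #A) :
    ∃ Λ : Finset (AddChar G ℂ), (#Λ : ℝ) ≤ 10 ^ 9 * L ^ 4 ∧
      ∀ ρ : ℝ, 0 ≤ ρ → #Λ * ρ ≤ Real.exp (-L) / 6 → ∀ b ∈ bohr Λ ρ,
        ∃ a1 ∈ A, ∃ a2 ∈ A, ∃ a3 ∈ A, ∃ a4 ∈ A, b = a1 + a2 - a3 - a4 := by
  have hG : (0 : ℝ) < Fintype.card G := card_pos_real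
  have hA0 : (0 : ℝ) < #A := (mul_pos (Real.exp_pos _) hG).trans_le hA
  obtain ⟨Λ, h1, h2⟩ := sanders hL hA
  refine ⟨Λ, h1, fun ρ hρ hρ' b hb => ?_⟩
  have h3 := h2 ρ hρ hρ' b hb
  have h4 : (0 : ℝ) < #{p ∈ A ×ˢ A | b + p.1 - p.2 ∈ A - A} := by
    have : (0 : ℝ) < #A ^ 2 := by positivity
    linarith
  obtain ⟨p, hp⟩ := card_pos.1 (Nat.cast_pos.1 h4)
  rw [mem_filter, mem_product] at hp
  obtain ⟨u, hu, v, hv, h⟩ := mem_sub.1 hp.2
  refine ⟨u, hu, p.2, hp.1.2, v, hv, p.1, hp.1.1, ?_⟩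
  have : b = u - v + p.2 - p.1 := by rw [h]; abel
  rw [this]
  abel

end Pool.Agent.Shared.AddComb
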